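import Pool.Agent.Work.MP_567c26_al.V2.Final

/-!
Q1 has a negative answer: there is no algorithm which, given a quasi-automatic structure of a
semigroup, decides whether the semigroup is synchronously automatic.

All definitions are in `Pool/Agent/Work/MP_567c26_al/Defs.lean`.
-/

open Pool.Agent.Work.MP_567c26_al

namespace Pool.Agent.Results.MP_567c26_al.UndecidableAutomaticity

/-- No algorithm halts on every quasi-automatic structure of a semigroup `S` and tells whether `S`
is synchronously automatic. -/
theorem result : ¬ ∃ D : Input →. Bool, Partrec D ∧
    ∀ (I : Input) (S : Type) [Semigroup S] (g : ℕ → S), IsStructure I S g →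
      ∃ b ∈ D I, (b = true ↔ SyncAutomatic S) :=
  V2.not_decidable1

end Pool.Agent.Results.MP_567c26_al.UndecidableAutomaticity
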